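import Pool.Agent.H336R5.PS.Defs

/-! Project PSUM, TaskA1: the mean of the Riesz product. -/

set_option autoImplicit false

namespace Pool.Agent.H719R5.PS

open Filter Topology MeasureTheory Pool.Agent.H336R5.PS

/-- the coefficients of `1 + cos` -/
noncomputable def Q1 (j : ℤ) : ℂ := if j = 0 then 1 else if j = 1 ∨ j = -1 then 1 / 2 else 0

theorem sum_five (g : ℤ → ℂ) :
    ∑ j ∈ Finset.Icc (-2 : ℤ) 2, g j = g (-2) + (g (-1) + (g 0 + (g 1 + g 2))) := by
  have h : Finset.Icc (-2 : ℤ) 2 = {-2, -1, 0, 1, 2} := by decide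
  rw [h]
  rw [Finset.sum_insert (by decide), Finset.sum_insert (by decide), Finset.sum_insert (by decide),
    Finset.sum_insert (by decide), Finset.sum_singleton]

theorem factor (p : ℕ) (t : ℝ) :
    ∑ j ∈ Finset.Icc (-2 : ℤ) 2, Q1 j * Complex.exp (Complex.I * ((t * (j * Real.log p) : ℝ) : ℂ)) =
      (u p t : ℂ) := by
  rw [sum_five]
  have h0 : Q1 0 = 1 := by simp [Q1]
  have h1 : Q1 1 = 1 / 2 := by simp [Q1]
  have h2 : Q1 (-1) = 1 / 2 := by simp [Q1]
  have h3 : Q1 2 = 0 := by norm_num [Q1]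
  have h4 : Q1 (-2) = 0 := by norm_num [Q1]
  rw [h0, h1, h2, h3, h4]
  unfold u
  push_cast
  rw [Complex.cos]
  have e1 : Complex.exp (Complex.I * ((t : ℂ) * (-1 * Complex.log p))) =
      Complex.exp (-((t : ℂ) * Complex.log p) * Complex.I) := by
    congr 1
    ring
  have e2 : Complex.exp (Complex.I * ((t : ℂ) * (1 * Complex.log p))) =
      Complex.exp ((t : ℂ) * Complex.log p * Complex.I) := by
    congr 1
    ring
  simp only [zero_mul, mul_zero, Complex.exp_zero] at *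
  rw [e1, e2]
  ring

theorem taskA1 (hA : TaskA) : TaskA1 := by
  intro P hP
  have h := hA P hP (fun _ j => Q1 j)
  have h1 : (∏ p ∈ P, (fun (_ : ℕ) (j : ℤ) => Q1 j) p 0) = 1 := by
    simp [Q1]
  rw [h1] at h
  have h2 : (fun t : ℝ => ∏ p ∈ P, ∑ j ∈ Finset.Icc (-2 : ℤ) 2,
      (fun (_ : ℕ) (j : ℤ) => Q1 j) p j *
        Complex.exp (Complex.I * ((t * (j * Real.log p) : ℝ) : ℂ))) = fun t => (f P t : ℂ) := by
    funext t
    unfold f
    rw [Complex.ofReal_prod]
    exact Finset.prod_congr rfl fun p _ => factor p t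
  rw [h2] at h
  exact h

end Pool.Agent.H719R5.PS
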